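import Mathlib
import Pool.Agent.W42.RG.Defs

set_option autoImplicit false
set_option linter.unusedSectionVars false

/-! Project LX, part TRANS: the Mautner phenomenon for measure preserving actions. -/

namespace Pool.Agent.W637.LX

open Finset Filter Topology MeasureTheory Pool.Agent.W42.RN Pool.Agent.W42.RL Pool.Agent.W42.RG

section space

variable {X : Type} [MeasurableSpace X]

/-- the measurable sets, to be used with the distance `μ (A Δ B)` -/
def MS (_μ : Measure X) : Type := {A : Set X // MeasurableSet A}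

variable (μ : Measure X) [IsProbabilityMeasure μ]

noncomputable instance instMS : PseudoMetricSpace (MS μ) where
  dist A B := μ.real (symmDiff A.1 B.1)
  dist_self A := by simp
  dist_comm A B := by rw [symmDiff_comm]
  dist_triangle A B C :=
    (measureReal_mono (symmDiff_triangle A.1 B.1 C.1) (measure_ne_top μ _)).trans
      (measureReal_union_le _ _)

variable {μ}

theorem dist_def (A B : MS μ) : dist A B = μ.real (symmDiff A.1 B.1) := rfl

/-- the measure algebra -/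
abbrev MM (μ : Measure X) [IsProbabilityMeasure μ] : Type := SeparationQuotient (MS μ)

/-- the class of a set -/
noncomputable def cl (A : MS μ) : MM μ := SeparationQuotient.mk A

theorem cl_surj (p : MM μ) : ∃ A : MS μ, cl A = p := SeparationQuotient.surjective_mk p

theorem dist_cl (A B : MS μ) : dist (cl A) (cl B) = μ.real (symmDiff A.1 B.1) :=
  SeparationQuotient.dist_mk A B

theorem cl_eq (A B : MS μ) : cl A = cl B ↔ A.1 =ᵐ[μ] B.1 := by
  rw [← dist_eq_zero, dist_cl, measureReal_eq_zero_iff (measure_ne_top μ _),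
    measure_symmDiff_eq_zero_iff]

/-- preimages -/
noncomputable def pre {S : X → X} (hS : MeasurePreserving S μ μ) (A : MS μ) : MS μ :=
  ⟨S ⁻¹' A.1, hS.measurable A.2⟩

theorem pre_val {S : X → X} (hS : MeasurePreserving S μ μ) (A : MS μ) :
    (pre hS A).1 = S ⁻¹' A.1 := rfl

/-- the action on the measure algebra -/
noncomputable def PP {S : X → X} (hS : MeasurePreserving S μ μ) : MM μ → MM μ :=
  SeparationQuotient.lift (fun A => cl (pre hS A)) (by
    intro A B h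
    have h1 : cl A = cl B := SeparationQuotient.mk_eq_mk.2 h
    rw [cl_eq] at h1 ⊢
    exact pre_ae hS h1)

theorem PP_cl {S : X → X} (hS : MeasurePreserving S μ μ) (A : MS μ) :
    PP hS (cl A) = cl (pre hS A) := rfl

theorem PP_iso {S : X → X} (hS : MeasurePreserving S μ μ) (p q : MM μ) :
    dist (PP hS p) (PP hS q) = dist p q := by
  obtain ⟨A, rfl⟩ := cl_surj p
  obtain ⟨B, rfl⟩ := cl_surj q
  rw [PP_cl, PP_cl, dist_cl, dist_cl, pre_val, pre_val, ← Set.preimage_symmDiff]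
  exact hS.measureReal_preimage (A.2.symmDiff B.2).nullMeasurableSet

theorem PP_same {S S' : X → X} (hS : MeasurePreserving S μ μ) (hS' : MeasurePreserving S' μ μ)
    (h : Same μ S S') (p : MM μ) : PP hS p = PP hS' p := by
  obtain ⟨A, rfl⟩ := cl_surj p
  rw [PP_cl, PP_cl, cl_eq]
  exact h A.1 A.2

theorem PP_comp {S S' : X → X} (hS : MeasurePreserving S μ μ) (hS' : MeasurePreserving S' μ μ)
    (p : MM μ) : PP hS (PP hS' p) = PP (hS'.comp hS) p := by
  obtain ⟨A, rfl⟩ := cl_surj p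
  rfl

theorem PP_dist {S S' : X → X} (hS : MeasurePreserving S μ μ) (hS' : MeasurePreserving S' μ μ)
    (A : MS μ) : dist (PP hS (cl A)) (PP hS' (cl A)) =
      ∫ p, ‖ind A.1 (S p) - ind A.1 (S' p)‖ ∂μ := by
  rw [PP_cl, PP_cl, dist_cl, pre_val, pre_val]
  have hm : MeasurableSet (symmDiff (S ⁻¹' A.1) (S' ⁻¹' A.1)) :=
    (hS.measurable A.2).symmDiff (hS'.measurable A.2)
  rw [← integral_indicator_one hm]
  refine integral_congr_ae (Eventually.of_forall fun p => ?_)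
  unfold ind
  by_cases h1 : S p ∈ A.1 <;> by_cases h2 : S' p ∈ A.1 <;>
    simp [Set.indicator, Set.mem_symmDiff, h1, h2]

end space

/-! ### the bracket in coordinates -/

section bracket

variable {𝔤 : Type} [LieRing 𝔤] [LieAlgebra ℝ 𝔤] [FiniteDimensional ℝ 𝔤] [TopologicalSpace 𝔤]
  [IsTopologicalAddGroup 𝔤] [ContinuousSMul ℝ 𝔤] [T2Space 𝔤] {n : ℕ}

/-- the bracket in coordinates, as a bilinear map -/
noncomputable def brl (e : 𝔤 ≃L[ℝ] (Fin n → ℝ)) :
    (Fin n → ℝ) →ₗ[ℝ] (Fin n → ℝ) →ₗ[ℝ] (Fin n → ℝ) :=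
  LinearMap.mk₂ ℝ (fun v w => e ⁅e.symm v, e.symm w⁆)
    (fun a b c => by rw [map_add, add_lie, map_add])
    (fun t a b => by rw [map_smul, smul_lie, map_smul])
    (fun a b c => by rw [map_add, lie_add, map_add])
    (fun t a b => by rw [map_smul, lie_smul, map_smul])

/-- the bracket in coordinates -/
noncomputable def br (e : 𝔤 ≃L[ℝ] (Fin n → ℝ)) :
    (Fin n → ℝ) →L[ℝ] (Fin n → ℝ) →L[ℝ] (Fin n → ℝ) :=
  LinearMap.toContinuousLinearMap
    ((LinearMap.toContinuousLinearMap :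
      ((Fin n → ℝ) →ₗ[ℝ] (Fin n → ℝ)) ≃ₗ[ℝ] ((Fin n → ℝ) →L[ℝ] (Fin n → ℝ))).toLinearMap ∘ₗ
        brl e)

theorem br_apply (e : 𝔤 ≃L[ℝ] (Fin n → ℝ)) (v w : Fin n → ℝ) :
    br e v w = e ⁅e.symm v, e.symm w⁆ := rfl

theorem br_pow (e : 𝔤 ≃L[ℝ] (Fin n → ℝ)) (v w : Fin n → ℝ) (l : ℕ) :
    ((br e v) ^ l) w = e (((LieAlgebra.ad ℝ 𝔤 (e.symm v)) ^ l) (e.symm w)) := by
  induction l with
  | zero => simp
  | succ l ih =>
    rw [pow_succ', pow_succ', mul_apply_eq_comp, ih, Module.End.mul_apply, br_apply,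
      LieAlgebra.ad_apply]
    simp

theorem exp_inv (e : 𝔤 ≃L[ℝ] (Fin n → ℝ)) (Y Z : Fin n → ℝ) :
    NormedSpace.exp (br e (-Y)) (NormedSpace.exp (br e Y) Z) = Z := by
  have h1 : br e (-Y) = -(br e Y) := map_neg _ _
  have h2 : NormedSpace.exp (-(br e Y)) * NormedSpace.exp (br e Y) = 1 := by
    let _ : NormedAlgebra ℚ ((Fin n → ℝ) →L[ℝ] (Fin n → ℝ)) := NormedAlgebra.restrictScalars ℚ ℝ _
    rw [← NormedSpace.exp_add_of_commute (Commute.neg_left (Commute.refl (br e Y))),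
      neg_add_cancel, NormedSpace.exp_zero]
  rw [h1]
  have := congrArg (fun f : (Fin n → ℝ) →L[ℝ] (Fin n → ℝ) => f Z) h2
  exact this

theorem hasSum_br (e : 𝔤 ≃L[ℝ] (Fin n → ℝ)) (Y Z : Fin n → ℝ) :
    HasSum (fun l : ℕ => ((l.factorial : ℝ)⁻¹) •
      ((LieAlgebra.ad ℝ 𝔤 (e.symm Y)) ^ l) (e.symm Z)) (e.symm (NormedSpace.exp (br e Y) Z)) := by
  have h1 := NormedSpace.exp_series_hasSum_exp' (𝕂 := ℝ) (br e Y)
  have h2 : HasSum (fun l : ℕ => ((l.factorial : ℝ)⁻¹) • ((br e Y) ^ l) Z)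
      (NormedSpace.exp (br e Y) Z) := by
    have := h1.mapL (ContinuousLinearMap.apply ℝ (Fin n → ℝ) Z)
    simpa using this
  have h3 := h2.mapL (e.symm : (Fin n → ℝ) →L[ℝ] 𝔤)
  refine h3.congr_fun ?_
  intro l
  rw [br_pow, map_smul]
  simp

end bracket

/-! ### the theorem -/

section main

variable {X : Type} [MeasurableSpace X]
variable {𝔤 : Type} [LieRing 𝔤] [LieAlgebra ℝ 𝔤] [FiniteDimensional ℝ 𝔤] [TopologicalSpace 𝔤]
  [IsTopologicalAddGroup 𝔤] [ContinuousSMul ℝ 𝔤] [T2Space 𝔤]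
variable {μ : Measure X} [IsProbabilityMeasure μ] {E : 𝔤 → X → X} {n : ℕ}

/-- the action in coordinates on the measure algebra -/
noncomputable def Phi (hE : GAct μ E) (e : 𝔤 ≃L[ℝ] (Fin n → ℝ)) (v : Fin n → ℝ) :
    MM μ → MM μ := PP (hE.mp (-(e.symm v)))

theorem Phi_cl (hE : GAct μ E) (e : 𝔤 ≃L[ℝ] (Fin n → ℝ)) (v : Fin n → ℝ) (A : MS μ) :
    (Phi hE e v (cl A) = cl A) ↔ E (-(e.symm v)) ⁻¹' A.1 =ᵐ[μ] A.1 := by
  unfold Phi
  rw [PP_cl, cl_eq, pre_val]

theorem iso_Phi (hE : GAct μ E) (e : 𝔤 ≃L[ℝ] (Fin n → ℝ))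
    (hloc : ∃ C ρ : ℝ, 0 < ρ ∧
    ∀ Y Z : 𝔤, ‖e Y‖ ≤ ρ → ‖e Z‖ ≤ ρ →
      ∃ V : 𝔤, ‖e (V - Y - Z)‖ ≤ C * ‖e ⁅Y, Z⁆‖ ∧ Same μ (E Y ∘ E Z) (E V)) :
    Iso (br e) (Phi hE e) := by
  refine ⟨?_, ?_, ?_, ?_, ?_, ?_, ?_⟩
  · intro Y p q
    exact PP_iso _ p q
  · intro p
    obtain ⟨A, rfl⟩ := cl_surj p
    rw [Phi_cl]
    have := hE.zero A.1 A.2
    simpa using this
  · intro Y s t p
    unfold Phi
    rw [PP_comp]
    apply PP_same
    have h := hE.line (e.symm Y) (-t) (-s)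
    have e1 : -(e.symm ((s + t) • Y)) = (-t + -s) • e.symm Y := by
      rw [map_smul, ← neg_smul]; congr 1; ring
    have e2 : -(e.symm (t • Y)) = (-t) • e.symm Y := by rw [map_smul, neg_smul]
    have e3 : -(e.symm (s • Y)) = (-s) • e.symm Y := by rw [map_smul, neg_smul]
    rw [e1, e2, e3]
    exact h
  · intro Y Z p
    unfold Phi
    rw [PP_comp, PP_comp]
    apply PP_same
    have h1 := hasSum_br e (-Y) (-(NormedSpace.exp (br e Y) Z))
    have h2 : NormedSpace.exp (br e (-Y)) (-(NormedSpace.exp (br e Y) Z)) = -Z := by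
      rw [map_neg, exp_inv]
    rw [h2, map_neg e.symm (NormedSpace.exp (br e Y) Z), map_neg e.symm Y, map_neg e.symm Z] at h1
    exact (hE.conj _ _ _ h1).symm
  · intro p
    obtain ⟨A, rfl⟩ := cl_surj p
    rw [continuous_iff_continuousAt]
    intro Y₀
    rw [ContinuousAt, tendsto_iff_dist_tendsto_zero]
    have h1 := hE.cont (ind A.1) (ind_bd A.2) (-(e.symm Y₀))
    have h2 : Tendsto (fun Y => -(e.symm Y)) (𝓝 Y₀) (𝓝 (-(e.symm Y₀))) :=
      (e.symm.continuous.neg).tendsto Y₀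
    refine (h1.comp h2).congr fun Y => ?_
    exact (PP_dist _ _ A).symm
  · obtain ⟨C, ρ, hρ, h⟩ := hloc
    refine ⟨C, ρ, hρ, fun Y Z hY hZ => ?_⟩
    obtain ⟨V, hV1, hV2⟩ := h (-(e.symm Z)) (-(e.symm Y)) (by simpa using hZ) (by simpa using hY)
    refine ⟨-(e V), ?_, fun p => ?_⟩
    · have e1 : e (V - -(e.symm Z) - -(e.symm Y)) = -(-(e V) - Y - Z) := by
        simp only [map_sub, map_neg, ContinuousLinearEquiv.apply_symm_apply]
        abel
      have e2 : e ⁅-(e.symm Z), -(e.symm Y)⁆ = -(br e Y Z) := by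
        rw [br_apply, neg_lie, lie_neg, neg_neg, ← lie_skew, map_neg]
      rw [e1, e2, norm_neg, norm_neg] at hV1
      exact hV1
    · unfold Phi
      rw [PP_comp]
      apply PP_same
      have e3 : -(e.symm (-(e V))) = V := by simp
      rw [e3]
      exact hV2
  · intro Y
    rw [br_apply, lie_self, map_zero]

end main

/-- **LX-TRANS** -/
theorem t_TRANS (h : S_MAUT) : S_MAUX := by
  intro X _ 𝔤 _ _ _ _ _ _ _ μ _ E hE K W hc B hB hW
  obtain ⟨n, e, C, ρ, hρ, hloc⟩ := hE.loc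
  have hI : Iso (br e) (Phi hE e) := iso_Phi hE e ⟨C, ρ, hρ, hloc⟩
  obtain ⟨c, hc⟩ := hc
  set A : MS μ := ⟨B, hB.1⟩ with hA
  set K' : Submodule ℝ (Fin n → ℝ) := K.toSubmodule.map (e.toLinearEquiv : 𝔤 →ₗ[ℝ] (Fin n → ℝ))
    with hK'
  have hmem : ∀ Z : 𝔤, Z ∈ K → e Z ∈ K' := fun Z hZ => ⟨Z, hZ, rfl⟩
  obtain ⟨S, hS1, hS2, hS3, hS4⟩ := h (Fin n → ℝ) (MM μ) (br e) (Phi hE e) hI (cl A) K'
    (by
      rintro Y _ ⟨Z, hZ, rfl⟩
      have : br e Y (e Z) = e ⁅e.symm Y, Z⁆ := by rw [br_apply]; simp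
      show br e Y (e Z) ∈ K'
      rw [this]
      exact hmem _ (K.lie_mem hZ))
    (by
      rintro _ ⟨Z, hZ, rfl⟩
      show Phi hE e (e Z) (cl A) = cl A
      rw [Phi_cl, ContinuousLinearEquiv.symm_apply_apply]
      exact hB.2 (-Z) (K.toSubmodule.neg_mem hZ))
    (e W)
    (by
      intro t
      rw [Phi_cl, map_smul, ContinuousLinearEquiv.symm_apply_apply, ← neg_smul]
      exact hW (-t))
    ⟨c, fun Y => by
      rw [br_pow, ContinuousLinearEquiv.symm_apply_apply]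
      exact hmem _ (hc _)⟩
  let J : LieIdeal ℝ 𝔤 :=
    { S.comap (e.toLinearEquiv : 𝔤 →ₗ[ℝ] (Fin n → ℝ)) with
      lie_mem := by
        intro x m hm
        have h1 : e m ∈ S := hm
        have h2 := hS1 (e x) (e m) h1
        rw [br_apply, ContinuousLinearEquiv.symm_apply_apply,
          ContinuousLinearEquiv.symm_apply_apply] at h2
        exact h2 }
  have hJ : ∀ Y : 𝔤, Y ∈ J ↔ e Y ∈ S := fun Y => Iff.rfl
  have hle : K ⊔ LieSubmodule.lieSpan ℝ 𝔤 {W} ≤ J := by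
    refine sup_le (fun Y hY => (hJ Y).2 (hS3 (hmem Y hY))) (LieSubmodule.lieSpan_le.2 ?_)
    intro Y hY
    rw [Set.mem_singleton_iff] at hY
    subst hY
    exact (hJ Y).2 hS2
  refine ⟨hB.1, fun Y hY => ?_⟩
  have h1 : Y ∈ J := hle hY
  have h2 : e (-Y) ∈ S := by
    rw [map_neg]; exact S.neg_mem ((hJ Y).1 h1)
  have h3 := hS4 _ h2
  rw [Phi_cl, ContinuousLinearEquiv.symm_apply_apply, neg_neg] at h3
  exact h3

end Pool.Agent.W637.LX
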